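import Pool.Agent.Helper98.DISC.GoalsA

/-!
# Project DISC (MP_105b7b_pr), packet RR
-/

noncomputable section

namespace Pool.Agent.Helper90.DISC

open Pool.Agent.Helper98.DISC

theorem th_mul (f g : PowerSeries ℂ) : th (f * g) = th f * g + f * th g := by
  unfold th
  rw [Derivation.leibniz]
  simp only [smul_eq_mul]
  ring

theorem th_C (c : ℂ) : th (PowerSeries.C c) = 0 := by
  unfold th
  have : PowerSeries.derivative ℂ (PowerSeries.C c) = 0 := by
    ext n
    rw [PowerSeries.coeff_derivative, PowerSeries.coeff_C]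
    simp
  rw [this, mul_zero]

theorem th_X : th (PowerSeries.X : PowerSeries ℂ) = PowerSeries.X := by
  unfold th
  have : PowerSeries.derivative ℂ (PowerSeries.X : PowerSeries ℂ) = 1 := by
    ext n
    rw [PowerSeries.coeff_derivative, PowerSeries.coeff_X, PowerSeries.coeff_one]
    by_cases h : n = 0
    · subst h; simp
    · simp [h]
  rw [this, mul_one]

theorem coeff_th (f : PowerSeries ℂ) (k : ℕ) :
    PowerSeries.coeff k (th f) = k * PowerSeries.coeff k f := by
  unfold th
  cases k with
  | zero => simp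
  | succ n =>
    rw [PowerSeries.coeff_succ_X_mul, PowerSeries.coeff_derivative]
    push_cast
    ring

theorem sk_zero (z : ℂ) : sk 0 z = 1 := by
  unfold sk
  have h : prt 0 = {fun i => Fin.elim0 i} := by
    ext lam
    simp only [prt, Finset.mem_filter, Finset.mem_univ, true_and, Finset.mem_singleton]
    constructor
    · intro _
      funext i
      exact Fin.elim0 i
    · intro _
      exact ⟨fun i => Fin.elim0 i, by simp⟩
  rw [h, Finset.sum_singleton]
  simp [dl]

theorem const_Sz (z : ℂ) : PowerSeries.constantCoeff (Sz z) = 1 := by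
  rw [← PowerSeries.coeff_zero_eq_constantCoeff_apply]
  unfold Sz
  rw [PowerSeries.coeff_mk, sk_zero]

theorem Sz_ne (z : ℂ) : Sz z ≠ 0 := by
  intro h
  have := const_Sz z
  rw [h] at this
  simp at this

theorem yz_mul (z : ℂ) : yz z * Sz z = th (Sz z) := by
  unfold yz
  rw [mul_assoc, PowerSeries.inv_mul_cancel, mul_one]
  rw [const_Sz]
  exact one_ne_zero

theorem rr (h : S_T1) : S_RR := by
  intro z hz
  have h1 := h z hz
  have hy := yz_mul z
  have hyp := yz_mul (z + 1)
  have hym := yz_mul (z - 1)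
  have hS := Sz_ne z
  have hc := const_Sz z
  have hcp := const_Sz (z + 1)
  have hcm := const_Sz (z - 1)
  -- the second derivative
  have h2 : th (th (Sz z)) = th (yz z) * Sz z + yz z * th (Sz z) := by
    rw [← th_mul, hy]
  have h3 : Sz z ^ 2 * th (yz z) =
      PowerSeries.C z⁻¹ * PowerSeries.X * Sz (z + 1) * Sz (z - 1) := by
    rw [← h1, h2, ← hy]
    ring
  have h4 : th (Sz z ^ 2 * th (yz z)) =
      Sz z ^ 2 * th (yz z) * (1 + yz (z + 1) + yz (z - 1)) := by
    rw [h3, th_mul, th_mul, th_mul, th_C, th_X, ← hyp, ← hym]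
    ring
  have h5 : th (Sz z ^ 2 * th (yz z)) =
      2 * Sz z * th (Sz z) * th (yz z) + Sz z ^ 2 * th (th (yz z)) := by
    rw [th_mul, sq, th_mul]
    ring
  have h6 : Sz z ^ 2 * th (th (yz z)) =
      Sz z ^ 2 * (th (yz z) * (1 + yz (z + 1) + yz (z - 1) - 2 * yz z)) := by
    have h7 := h5.symm.trans h4
    rw [← hy] at h7
    linear_combination h7
  have h8 : th (th (yz z)) = th (yz z) * (1 + yz (z + 1) + yz (z - 1) - 2 * yz z) :=
    mul_left_cancel₀ (pow_ne_zero 2 hS) h6
  have h0 : yk 0 z = 0 := by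
    unfold yk
    have h9 := congrArg (PowerSeries.coeff 0) hy
    rw [coeff_th] at h9
    simp only [Nat.cast_zero, zero_mul] at h9
    rw [PowerSeries.coeff_zero_eq_constantCoeff_apply, map_mul, hc, mul_one] at h9
    rw [PowerSeries.coeff_zero_eq_constantCoeff_apply]
    exact h9
  refine ⟨h0, ?_, ?_⟩
  · have h9 := congrArg (PowerSeries.coeff 1) h3
    have h10 : PowerSeries.coeff 1 (Sz z ^ 2 * th (yz z)) = yk 1 z := by
      have e : Sz z ^ 2 * th (yz z) = PowerSeries.X * (Sz z ^ 2 * PowerSeries.derivative ℂ (yz z)) := by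
        unfold th; ring
      rw [e]
      have e1 := PowerSeries.coeff_succ_X_mul 0 (Sz z ^ 2 * PowerSeries.derivative ℂ (yz z))
      rw [zero_add] at e1
      rw [e1, PowerSeries.coeff_zero_eq_constantCoeff_apply, map_mul, map_pow, hc, one_pow, one_mul,
        ← PowerSeries.coeff_zero_eq_constantCoeff_apply, PowerSeries.coeff_derivative]
      unfold yk
      simp
    have h11 : PowerSeries.coeff 1 (PowerSeries.C z⁻¹ * PowerSeries.X * Sz (z + 1) * Sz (z - 1)) =
        z⁻¹ := by
      have e : PowerSeries.C z⁻¹ * PowerSeries.X * Sz (z + 1) * Sz (z - 1) =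
          PowerSeries.X * (PowerSeries.C z⁻¹ * Sz (z + 1) * Sz (z - 1)) := by ring
      rw [e]
      have e1 := PowerSeries.coeff_succ_X_mul 0 (PowerSeries.C z⁻¹ * Sz (z + 1) * Sz (z - 1))
      rw [zero_add] at e1
      rw [e1, PowerSeries.coeff_zero_eq_constantCoeff_apply, map_mul, map_mul, hcp, hcm]
      simp
    rw [h10, h11] at h9
    exact h9
  · intro k _
    have h9 := congrArg (PowerSeries.coeff k) h8
    have e : th (yz z) * (1 + yz (z + 1) + yz (z - 1) - 2 * yz z) =
        th (yz z) + th (yz z) * (yz (z + 1) + yz (z - 1) - PowerSeries.C 2 * yz z) := by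
      have : (PowerSeries.C (2 : ℂ) : PowerSeries ℂ) = 2 := map_ofNat PowerSeries.C 2
      rw [this]
      ring
    rw [e, map_add, coeff_th, coeff_th, PowerSeries.coeff_mul] at h9
    have e2 : ∀ x ∈ Finset.HasAntidiagonal.antidiagonal k,
        PowerSeries.coeff x.1 (th (yz z)) *
          PowerSeries.coeff x.2 (yz (z + 1) + yz (z - 1) - PowerSeries.C 2 * yz z) =
        (x.1 * yk x.1 z) * (yk x.2 (z + 1) + yk x.2 (z - 1) - 2 * yk x.2 z) := by
      intro x _
      rw [coeff_th, map_sub, map_add, PowerSeries.coeff_C_mul]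
      rfl
    rw [Finset.sum_congr rfl e2] at h9
    have e3 : PowerSeries.coeff k (yz z) = yk k z := rfl
    rw [e3] at h9
    linear_combination h9

end Pool.Agent.Helper90.DISC
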